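import Pool.Agent.Lib.MP_c052b4_al.VG.Ring

/-!
# The monoid algebra
-/

set_option autoImplicit false

namespace Pool.Agent.Lib.MP_c052b4_al.VG

/-- the ring -/
abbrev R0 : Type := MonoidAlgebra ℚ B0

/-- the central idempotent -/
noncomputable def z : R0 := MonoidAlgebra.single B0.zero 1

/-- the multiplicative basis elements -/
noncomputable def β (b : B0) : R0 := MonoidAlgebra.single b 1 - MonoidAlgebra.single B0.zero 1

theorem β_zero : β B0.zero = 0 := sub_self _

theorem β_mul (a b : B0) : β a * β b = β (a * b) := by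
  simp only [β, sub_mul, mul_sub, MonoidAlgebra.single_mul_single, mul_one, B0.zero_mul',
    B0.mul_zero'']
  abel

theorem z_mul_single (b : B0) (c : ℚ) : z * MonoidAlgebra.single b c = c • z := by
  rw [z, MonoidAlgebra.single_mul_single, B0.zero_mul', MonoidAlgebra.smul_single, one_mul,
    smul_eq_mul, mul_one]

theorem single_mul_z (b : B0) (c : ℚ) : MonoidAlgebra.single b c * z = c • z := by
  rw [z, MonoidAlgebra.single_mul_single, B0.mul_zero'', MonoidAlgebra.smul_single, smul_eq_mul]

theorem z_mul_z : z * z = z := by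
  have := z_mul_single B0.zero 1
  rw [one_smul] at this
  exact this

theorem z_mul_β (b : B0) : z * β b = 0 := by
  rw [β, mul_sub, z_mul_single, z_mul_single, sub_self]

theorem β_mul_z (b : B0) : β b * z = 0 := by
  rw [β, sub_mul, single_mul_z, single_mul_z, sub_self]

theorem β_one : β B0.one = 1 - z := rfl

/-- linear maps given on the basis -/
noncomputable def ev {M : Type*} [AddCommGroup M] [Module ℚ M] (v : B0 → M) : R0 →ₗ[ℚ] M :=
  (Finsupp.linearCombination ℚ v).comp
    (MonoidAlgebra.coeffLinearEquiv ℚ : R0 ≃ₗ[ℚ] (B0 →₀ ℚ)).toLinearMap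

section

variable {M : Type*} [AddCommGroup M] [Module ℚ M]

theorem ev_single (v : B0 → M) (b : B0) (c : ℚ) : ev v (MonoidAlgebra.single b c) = c • v b := by
  change Finsupp.linearCombination ℚ v (Finsupp.single b c) = _
  rw [Finsupp.linearCombination_single]

theorem ev_z (v : B0 → M) (hv : v B0.zero = 0) : ev v z = 0 := by
  rw [z, ev_single, hv, smul_zero]

theorem ev_β (v : B0 → M) (hv : v B0.zero = 0) (b : B0) : ev v (β b) = v b := by
  rw [β, map_sub, ev_single, ev_single, hv, smul_zero, sub_zero, one_smul]

/-- induction on elements -/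
theorem ind {p : R0 → Prop} (h0 : p z) (hb : ∀ b, p (β b))
    (hadd : ∀ x y, p x → p y → p (x + y)) (hsmul : ∀ (c : ℚ) x, p x → p (c • x)) (x : R0) :
    p x := by
  have hs : ∀ b, p (MonoidAlgebra.single b 1) := by
    intro b
    have : (MonoidAlgebra.single b 1 : R0) = β b + z := by
      rw [β, z, sub_add_cancel]
    rw [this]
    exact hadd _ _ (hb b) h0
  have hsc : ∀ b c, p (MonoidAlgebra.single b c) := by
    intro b c
    have : (MonoidAlgebra.single b c : R0) = c • MonoidAlgebra.single b 1 := by
      rw [MonoidAlgebra.smul_single, smul_eq_mul, mul_one]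
    rw [this]
    exact hsmul c _ (hs b)
  refine MonoidAlgebra.induction_linear x ?_ hadd hsc
  have := hsmul 0 z h0
  rw [zero_smul] at this
  exact this

theorem lin_ext {f g : R0 →ₗ[ℚ] M} (h0 : f z = g z) (hb : ∀ b, f (β b) = g (β b)) : f = g := by
  apply LinearMap.ext
  intro x
  induction x using ind with
  | h0 => exact h0
  | hb b => exact hb b
  | hadd x y hx hy => rw [map_add, map_add, hx, hy]
  | hsmul c x hx => rw [map_smul, map_smul, hx]

end

theorem z_comm (r : R0) : z * r = r * z := by
  induction r using ind with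
  | h0 => rfl
  | hb b => rw [z_mul_β, β_mul_z]
  | hadd x y hx hy => rw [mul_add, add_mul, hx, hy]
  | hsmul c x hx => rw [mul_smul_comm, smul_mul_assoc, hx]

end Pool.Agent.Lib.MP_c052b4_al.VG
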