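import Mathlib

/-!
# Classes of modules closed under 2-of-3 and direct sums
-/

set_option autoImplicit false

namespace Pool.Agent.Lib.MP_c052b4_al.VG

open DirectSum

/-- A class of left modules which contains the ring, is closed under isomorphism and arbitrary
direct sums, and contains all three terms of a short exact sequence as soon as it contains two
of them. -/
structure IsCls (R : Type) [Ring R] (C : ∀ (M : Type) [AddCommGroup M] [Module R M], Prop) :
    Prop where
  self : C R
  iso : ∀ (M N : Type) [AddCommGroup M] [Module R M] [AddCommGroup N] [Module R N],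
    (M ≃ₗ[R] N) → C M → C N
  sum : ∀ (ι : Type) (M : ι → Type) [∀ i, AddCommGroup (M i)] [∀ i, Module R (M i)],
    (∀ i, C (M i)) → C (⨁ i, M i)
  left : ∀ (A B D : Type) [AddCommGroup A] [Module R A] [AddCommGroup B] [Module R B]
    [AddCommGroup D] [Module R D] (f : A →ₗ[R] B) (g : B →ₗ[R] D), Function.Injective f →
    Function.Exact f g → Function.Surjective g → C B → C D → C A
  mid : ∀ (A B D : Type) [AddCommGroup A] [Module R A] [AddCommGroup B] [Module R B]
    [AddCommGroup D] [Module R D] (f : A →ₗ[R] B) (g : B →ₗ[R] D), Function.Injective f →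
    Function.Exact f g → Function.Surjective g → C A → C D → C B
  right : ∀ (A B D : Type) [AddCommGroup A] [Module R A] [AddCommGroup B] [Module R B]
    [AddCommGroup D] [Module R D] (f : A →ₗ[R] B) (g : B →ₗ[R] D), Function.Injective f →
    Function.Exact f g → Function.Surjective g → C A → C B → C D

variable {R : Type} [Ring R] {C : ∀ (M : Type) [AddCommGroup M] [Module R M], Prop}

section Submodules

variable (hC : IsCls R C) {X X' : Type} [AddCommGroup X] [Module R X] [AddCommGroup X']
  [Module R X']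

include hC

/-- the exact sequence `0 → A ⊓ ker φ → A → φ(A) → 0` -/
theorem map_of (A : Submodule R X) (φ : X →ₗ[R] X') (h1 : C ↥(A ⊓ LinearMap.ker φ)) (h2 : C ↥A) :
    C ↥(A.map φ) := by
  refine hC.right ↥(A ⊓ LinearMap.ker φ) ↥A ↥(A.map φ) (Submodule.inclusion inf_le_left)
    (φ.restrict (fun x hx => Submodule.mem_map_of_mem hx)) (Submodule.inclusion_injective _)
    ?_ ?_ h1 h2
  · intro x
    constructor
    · intro hx
      have hx' : φ x.1 = 0 := congrArg Subtype.val hx
      exact ⟨⟨x.1, x.2, hx'⟩, rfl⟩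
    · rintro ⟨y, rfl⟩
      exact Subtype.ext y.2.2
  · rintro ⟨_, x, hx, rfl⟩
    exact ⟨⟨x, hx⟩, rfl⟩

theorem inf_of (A : Submodule R X) (φ : X →ₗ[R] X') (h1 : C ↥A) (h2 : C ↥(A.map φ)) :
    C ↥(A ⊓ LinearMap.ker φ) := by
  refine hC.left ↥(A ⊓ LinearMap.ker φ) ↥A ↥(A.map φ) (Submodule.inclusion inf_le_left)
    (φ.restrict (fun x hx => Submodule.mem_map_of_mem hx)) (Submodule.inclusion_injective _)
    ?_ ?_ h1 h2
  · intro x
    constructor
    · intro hx
      have hx' : φ x.1 = 0 := congrArg Subtype.val hx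
      exact ⟨⟨x.1, x.2, hx'⟩, rfl⟩
    · rintro ⟨y, rfl⟩
      exact Subtype.ext y.2.2
  · rintro ⟨_, x, hx, rfl⟩
    exact ⟨⟨x, hx⟩, rfl⟩

theorem of_map (A : Submodule R X) (φ : X →ₗ[R] X') (h1 : C ↥(A ⊓ LinearMap.ker φ))
    (h2 : C ↥(A.map φ)) : C ↥A := by
  refine hC.mid ↥(A ⊓ LinearMap.ker φ) ↥A ↥(A.map φ) (Submodule.inclusion inf_le_left)
    (φ.restrict (fun x hx => Submodule.mem_map_of_mem hx)) (Submodule.inclusion_injective _)
    ?_ ?_ h1 h2
  · intro x
    constructor
    · intro hx
      have hx' : φ x.1 = 0 := congrArg Subtype.val hx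
      exact ⟨⟨x.1, x.2, hx'⟩, rfl⟩
    · rintro ⟨y, rfl⟩
      exact Subtype.ext y.2.2
  · rintro ⟨_, x, hx, rfl⟩
    exact ⟨⟨x, hx⟩, rfl⟩

/-- a module with a submodule and quotient in the class is in the class -/
theorem of_quot (A : Submodule R X) (h1 : C ↥A) (h2 : C (X ⧸ A)) : C X :=
  hC.mid ↥A X (X ⧸ A) A.subtype A.mkQ A.subtype_injective
    (by
      rw [LinearMap.exact_iff, Submodule.ker_mkQ, Submodule.range_subtype])
    A.mkQ_surjective h1 h2

theorem zero_of [Subsingleton X] : C X := by
  refine hC.left X R R (0 : X →ₗ[R] R) LinearMap.id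
    (fun x y _ => Subsingleton.elim x y) ?_ Function.surjective_id hC.self hC.self
  intro x
  constructor
  · intro hx
    exact ⟨0, by simpa using Eq.symm hx⟩
  · rintro ⟨y, rfl⟩
    rfl

theorem bot_of : C ↥(⊥ : Submodule R X) := zero_of hC

end Submodules

end Pool.Agent.Lib.MP_c052b4_al.VG
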