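import Pool.Agent.Lib.MP_c052b4_al.VG.Reg3

/-!
# All modules are in every class, final step
-/

set_option autoImplicit false

namespace Pool.Agent.Lib.MP_c052b4_al.VG

open DirectSum

variable {C : ∀ (M : Type) [AddCommGroup M] [Module R0 M], Prop}

theorem idem_one_sub_z : (1 - z) * (1 - z) = 1 - z := by
  rw [mul_sub, mul_one, sub_mul, one_mul, z_mul_z, sub_self, sub_zero]

/-- the complement of the central idempotent -/
noncomputable def R1 : Submodule R0 R0 := (⊤ : Submodule R0 R0).map (rm (1 - z))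

theorem R1_z (x : ↥R1) : z • x = 0 := by
  obtain ⟨x, s, _, rfl⟩ := x
  apply Subtype.ext
  change z * (s * (1 - z)) = 0
  rw [← mul_assoc, z_comm, mul_assoc, mul_sub, mul_one, z_mul_z, sub_self, mul_zero]

theorem one_sub_z_mem : (1 - z) ∈ R1 := ⟨1, trivial, one_mul _⟩

theorem chinf_E (n : ℕ) : chinf (E n) = 0 := by
  rw [E, map_sum]
  refine Finset.sum_eq_zero (fun j _ => ?_)
  rw [chinf, tt, ev_β _ rfl, T_of le_rfl]

theorem quot_mem (hC : IsCls R0 C) : C (↥R1 ⧸ uni ↥R1 R1_z) :=
  hC.right ↥(uni ↥R1 R1_z) ↥R1 _ (uni ↥R1 R1_z).subtype (uni ↥R1 R1_z).mkQ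
    (Submodule.subtype_injective _)
    (by rw [LinearMap.exact_iff, Submodule.ker_mkQ, Submodule.range_subtype])
    (Submodule.mkQ_surjective _) (uni_mem hC ↥R1 R1_z) (idem_of hC (1 - z) idem_one_sub_z)

theorem chinf_of (hC : IsCls R0 C) (V : Type) [AddCommGroup V] [Module R0 V]
    (hV : ∀ (r : R0) (v : V), r • v = algebraMap ℚ R0 (chinf r) • v) : C V := by
  refine chi_of hC (↥R1 ⧸ uni ↥R1 R1_z) V (fun r => chinf r)
    ((uni ↥R1 R1_z).mkQ ⟨1 - z, one_sub_z_mem⟩) (uni_quot ↥R1 R1_z) hV ?_ ?_ (quot_mem hC)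
  · intro v
    obtain ⟨⟨_, s, _, rfl⟩, rfl⟩ := (uni ↥R1 R1_z).mkQ_surjective v
    refine ⟨chinf s, ?_⟩
    rw [← uni_quot ↥R1 R1_z s, ← map_smul]
    rfl
  · intro h
    rw [Submodule.mkQ_apply, Submodule.Quotient.mk_eq_zero] at h
    obtain ⟨n, hn⟩ := h
    have h1 : E n * (1 - z) = 1 - z := congrArg Subtype.val hn
    have h2 : E n * z = 0 := by
      rw [E, Finset.sum_mul]
      exact Finset.sum_eq_zero (fun j _ => β_mul_z _)
    rw [mul_sub, mul_one, h2, sub_zero] at h1
    have h3 : chinf (1 - z) = 1 := by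
      rw [← β_one, chinf, ev_β _ rfl]
    rw [← h1, chinf_E] at h3
    exact zero_ne_one h3

/-- modules killed by `z` -/
theorem nz_of (hC : IsCls R0 C) (M : Type) [AddCommGroup M] [Module R0 M]
    (hz : ∀ x : M, z • x = 0) : C M :=
  of_quot hC (uni M hz) (uni_mem hC M hz) (chinf_of hC _ (uni_quot M hz))

theorem mul_z (r : R0) : r * z = algebraMap ℚ R0 (chz r) * z := by
  rw [smul_eq]
  induction r using ind with
  | h0 =>
    have h1 : chz z = 1 := by
      rw [chz, z, ev_single, one_smul]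
    rw [h1, one_smul, z_mul_z]
  | hb b =>
    have h1 : chz (β b) = 0 := by
      rw [chz, β, map_sub, ev_single, ev_single, sub_self]
    rw [h1, zero_smul, β_mul_z]
  | hadd r s hr hs => rw [add_mul, map_add, add_smul, hr, hs]
  | hsmul c r hr => rw [smul_mul_assoc, map_smul, hr, smul_assoc]

theorem z_ne_zero : z ≠ 0 := by
  intro h
  have h1 : chz z = 1 := by
    rw [chz, z, ev_single, one_smul]
  rw [h, map_zero] at h1
  exact zero_ne_one h1

theorem chz_of (hC : IsCls R0 C) (V : Type) [AddCommGroup V] [Module R0 V]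
    (hV : ∀ (r : R0) (v : V), r • v = algebraMap ℚ R0 (chz r) • v) : C V := by
  refine chi_of hC ↥((⊤ : Submodule R0 R0).map (LinearMap.toSpanSingleton R0 R0 z)) V
    (fun r => chz r) ⟨z, ⟨1, trivial, one_mul z⟩⟩ ?_ hV ?_ ?_ (idem_of hC z z_mul_z)
  · rintro r ⟨_, s, _, rfl⟩
    apply Subtype.ext
    change r * (s * z) = algebraMap ℚ R0 (chz r) * (s * z)
    rw [← z_comm s, ← mul_assoc, mul_z, mul_assoc]
  · rintro ⟨_, s, _, rfl⟩
    refine ⟨chz s, Subtype.ext ?_⟩
    exact (mul_z s).symm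
  · intro h
    exact z_ne_zero (congrArg Subtype.val h)

/-- multiplication by the central idempotent -/
noncomputable def zlin (M : Type) [AddCommGroup M] [Module R0 M] : M →ₗ[R0] M where
  toFun x := z • x
  map_add' x y := smul_add z x y
  map_smul' r x := by
    rw [smul_smul, z_comm, ← smul_smul]
    rfl

/-- every module is in every class -/
theorem regular (hC : IsCls R0 C) (M : Type) [AddCommGroup M] [Module R0 M] : C M := by
  refine hC.mid ↥(LinearMap.ker (zlin M)) M ↥(LinearMap.range (zlin M))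
    (LinearMap.ker (zlin M)).subtype (zlin M).rangeRestrict (Submodule.subtype_injective _) ?_
    (LinearMap.surjective_rangeRestrict _) ?_ ?_
  · rw [LinearMap.exact_iff, LinearMap.ker_rangeRestrict, Submodule.range_subtype]
  · refine nz_of hC _ (fun x => Subtype.ext ?_)
    exact x.2
  · refine chz_of hC _ ?_
    rintro r ⟨_, x, rfl⟩
    apply Subtype.ext
    change r • z • x = algebraMap ℚ R0 (chz r) • z • x
    rw [smul_smul, smul_smul, mul_z]

end Pool.Agent.Lib.MP_c052b4_al.VG
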