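import Pool.Agent.Lib.MP_c052b4_al.VG.NK
import Pool.Agent.Lib.MP_c052b4_al.VG.Reg4

/-!
# Regularity in the sense of classes closed under 2-of-3 and direct sums does not imply the
vanishing of `NK₁`

We construct a ring `R0` all of whose (left) modules lie in every class of modules which contains
the ring and is closed under isomorphism, direct sums and the 2-of-3 rule for short exact
sequences (hence in every such class closed under filtered colimits), and whose group
`NK₁(R0) = ker(K₁(R0[T]) → K₁(R0))` is nonzero.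
-/

set_option autoImplicit false

namespace Pool.Agent.Lib.MP_c052b4_al.VG

open Polynomial

/-- the trace form on the basis -/
def tv : B0 → ℚ
  | .y j i _ => if j = i then 1 else 0
  | _ => 0

theorem tv_T (j i : ℕ) : tv (B0.T j i) = 0 := by
  by_cases h : j ≤ i
  · rw [T_of h]; rfl
  · rw [T_not h]; rfl

theorem tv_Y (j i : ℕ) : tv (B0.Y j i) = if j = i then 1 else 0 := by
  by_cases h : i ≤ j
  · rw [Y_of h]; rfl
  · rw [Y_not h, if_neg (by omega)]; rfl

theorem tv_comm (a b : B0) : tv (a * b) = tv (b * a) := by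
  cases a with
  | zero => rw [B0.zero_mul', B0.mul_zero'']
  | one => exact congrArg tv (B0.mul_one' b).symm
  | t l j h =>
    cases b with
    | zero => rw [B0.zero_mul', B0.mul_zero'']
    | one => rfl
    | t j' i h' =>
      rw [B0.t_mul_t, B0.t_mul_t]
      split_ifs <;> simp only [tv_T] <;> rfl
    | y j' i h' =>
      rw [B0.t_mul_y, B0.y_mul_t]
      by_cases h1 : j = j' <;> by_cases h2 : i = l
      · rw [if_pos h1, if_pos h2, tv_Y, tv_Y, if_pos h2.symm, if_pos h1.symm]
      · rw [if_pos h1, if_neg h2, tv_Y, if_neg (fun hh => h2 hh.symm)]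
        rfl
      · rw [if_neg h1, if_pos h2, tv_Y, if_neg (fun hh => h1 hh.symm)]
        rfl
      · rw [if_neg h1, if_neg h2]
  | y l j h =>
    cases b with
    | zero => rw [B0.zero_mul', B0.mul_zero'']
    | one => rfl
    | t j' i h' =>
      rw [B0.t_mul_y, B0.y_mul_t]
      by_cases h1 : j = j' <;> by_cases h2 : i = l
      · rw [if_pos h1, if_pos h2, tv_Y, tv_Y, if_pos h2.symm, if_pos h1.symm]
      · rw [if_pos h1, if_neg h2, tv_Y, if_neg (fun hh => h2 hh.symm)]
        rfl
      · rw [if_neg h1, if_pos h2, tv_Y, if_neg (fun hh => h1 hh.symm)]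
        rfl
      · rw [if_neg h1, if_neg h2]
    | y j' i h' => rfl

/-- the trace form -/
noncomputable def τ0 : R0 →ₗ[ℚ] ℚ := ev tv

theorem τ0_comm (a b : R0) : τ0 (a * b) = τ0 (b * a) := by
  have hz : ∀ a : R0, τ0 (z * a) = 0 := by
    intro a
    rw [z_comm, mul_z, smul_eq, map_smul, τ0, ev_z _ rfl, smul_zero]
  induction a using ind with
  | h0 => rw [← z_comm, hz]
  | hb a =>
    induction b using ind with
    | h0 => rw [← z_comm, hz]
    | hb b => rw [β_mul, β_mul, τ0, ev_β _ rfl, ev_β _ rfl, tv_comm]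
    | hadd x y hx hy => rw [mul_add, add_mul, map_add, map_add, hx, hy]
    | hsmul c x hx => rw [mul_smul_comm, smul_mul_assoc, map_smul, map_smul, hx]
  | hadd x y hx hy => rw [mul_add, add_mul, map_add, map_add, hx, hy]
  | hsmul c x hx => rw [mul_smul_comm, smul_mul_assoc, map_smul, map_smul, hx]

theorem nk : ∃ w : KOne R0[X], w ≠ 0 ∧
    KOne.map (Polynomial.constantCoeff : R0[X] →+* R0) w = 0 := by
  refine nk_ne τ0.toAddMonoidHom τ0_comm (yy 0 0) (yy_mul_yy _ _ _ _) ?_
  change τ0 (yy 0 0) ≠ 0
  rw [τ0, yy, ev_β _ rfl, tv_Y, if_pos rfl]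
  exact one_ne_zero

/-- **Counterexample.** There is a ring `R` such that every left `R`-module lies in every class of
modules containing `R` and closed under isomorphism, direct sums and the 2-of-3 rule for short
exact sequences, but the kernel of `K₁(R[T]) → K₁(R)`, `T ↦ 0`, is nonzero. -/
theorem main : ∃ (R : Type) (_ : Ring R),
    (∀ C : ∀ (M : Type) [AddCommGroup M] [Module R M], Prop, IsCls R C →
      ∀ (M : Type) [AddCommGroup M] [Module R M], C M) ∧
    ∃ w : KOne R[X], w ≠ 0 ∧ KOne.map (Polynomial.constantCoeff : R[X] →+* R) w = 0 :=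
  ⟨R0, inferInstance, fun _ hC M _ _ => regular hC M, nk⟩

end Pool.Agent.Lib.MP_c052b4_al.VG
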