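import Pool.Agent.Lib.MP_c052b4_al.VG.Alg

/-!
# The left ideals `P`, `Q`, `K`, `L`
-/

set_option autoImplicit false

namespace Pool.Agent.Lib.MP_c052b4_al.VG

/-- right multiplication -/
noncomputable def rm (a : R0) : R0 →ₗ[R0] R0 := LinearMap.toSpanSingleton R0 R0 a

theorem rm_apply (a s : R0) : rm a s = s * a := rfl

theorem rm_comp (a b : R0) : (rm b).comp (rm a) = rm (a * b) := by
  apply LinearMap.ext
  intro s
  change s * a * b = s * (a * b)
  rw [mul_assoc]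

/-- the arrow from `i` to `j ≤ i` (or zero) -/
noncomputable def tt (j i : ℕ) : R0 := β (B0.T j i)

/-- the arrow from `i` to `j ≥ i` (or zero) -/
noncomputable def yy (j i : ℕ) : R0 := β (B0.Y j i)

theorem T_of {j i : ℕ} (h : j ≤ i) : B0.T j i = B0.t j i h := dif_pos h

theorem Y_of {j i : ℕ} (h : i ≤ j) : B0.Y j i = B0.y j i h := dif_pos h

theorem T_not {j i : ℕ} (h : ¬ j ≤ i) : B0.T j i = B0.zero := dif_neg h

theorem Y_not {j i : ℕ} (h : ¬ i ≤ j) : B0.Y j i = B0.zero := dif_neg h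

theorem tt_zero {j i : ℕ} (h : ¬ j ≤ i) : tt j i = 0 := by
  rw [tt, T_not h, β_zero]

theorem yy_zero {j i : ℕ} (h : ¬ i ≤ j) : yy j i = 0 := by
  rw [yy, Y_not h, β_zero]

theorem tt_mul_tt {l j i : ℕ} (h : l ≤ j) (h' : j ≤ i) : tt l j * tt j i = tt l i := by
  rw [tt, tt, tt, β_mul, T_of h, T_of h', B0.t_mul_t, if_pos rfl]

theorem tt_mul_yy {l j i : ℕ} (h : l ≤ j) (h' : i ≤ j) : tt l j * yy j i = yy l i := by
  rw [tt, yy, yy, β_mul, T_of h, Y_of h', B0.t_mul_y, if_pos rfl]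

theorem yy_mul_tt {l j i : ℕ} (h : j ≤ l) (h' : j ≤ i) : yy l j * tt j i = yy l i := by
  rw [tt, yy, yy, β_mul, Y_of h, T_of h', B0.y_mul_t, if_pos rfl]

theorem Y_mul_Y (l j j' i : ℕ) : B0.Y l j * B0.Y j' i = B0.zero := by
  by_cases h : j ≤ l <;> by_cases h' : i ≤ j'
  · rw [Y_of h, Y_of h', B0.y_mul_y]
  · rw [Y_not h', B0.mul_zero'']
  · rw [Y_not h, B0.zero_mul']
  · rw [Y_not h, B0.zero_mul']

theorem yy_mul_yy (l j j' i : ℕ) : yy l j * yy j' i = 0 := by
  rw [yy, yy, β_mul, Y_mul_Y, β_zero]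

/-- products with `yy m 0` on the right -/
theorem β_mul_yy (b : B0) (m : ℕ) :
    ∃ j, j ≤ m ∧ (β b * yy m 0 = yy j 0 ∨ β b * yy m 0 = 0) := by
  have hm : (0 : ℕ) ≤ m := Nat.zero_le m
  cases b with
  | zero => exact ⟨0, hm, Or.inr (by rw [β_zero, zero_mul])⟩
  | one => exact ⟨m, le_rfl, Or.inl (by rw [yy, β_mul]; rfl)⟩
  | t l j h =>
    by_cases hj : j = m
    · subst hj
      exact ⟨l, h, Or.inl (by rw [← T_of h]; exact tt_mul_yy h hm)⟩
    · exact ⟨0, hm, Or.inr (by rw [yy, β_mul, Y_of hm, B0.t_mul_y, if_neg hj, β_zero])⟩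
  | y l j h => exact ⟨0, hm, Or.inr (by rw [← Y_of h]; exact yy_mul_yy _ _ _ _)⟩

/-- projective module -/
noncomputable def P (m : ℕ) : Submodule R0 R0 := (⊤ : Submodule R0 R0).map (rm (tt m m))

/-- the left ideal generated by `yy m 0` -/
noncomputable def Q (m : ℕ) : Submodule R0 R0 := (⊤ : Submodule R0 R0).map (rm (yy m 0))

/-- the shifted family -/
noncomputable def Q' : ℕ → Submodule R0 R0
  | 0 => ⊥
  | (m + 1) => Q m

/-- the union of the `Q m` -/
noncomputable def K : Submodule R0 R0 := ⨆ m, Q m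

/-- the image of `K` in `P m` -/
noncomputable def L (m : ℕ) : Submodule R0 R0 := K.map (rm (tt 0 m))

theorem mem_Q {m : ℕ} {x : R0} : x ∈ Q m ↔ ∃ s, s * yy m 0 = x := by
  constructor
  · rintro ⟨s, _, rfl⟩
    exact ⟨s, rfl⟩
  · rintro ⟨s, rfl⟩
    exact ⟨s, trivial, rfl⟩

theorem mem_P {m : ℕ} {x : R0} : x ∈ P m ↔ x * tt m m = x := by
  constructor
  · rintro ⟨s, _, rfl⟩
    rw [rm_apply, mul_assoc, tt_mul_tt le_rfl le_rfl]
  · intro h
    exact ⟨x, trivial, h⟩

theorem yy_mem_Q {j m : ℕ} (h : j ≤ m) : yy j 0 ∈ Q m :=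
  mem_Q.2 ⟨tt j m, tt_mul_yy h (Nat.zero_le m)⟩

theorem Q_mono {m n : ℕ} (h : m ≤ n) : Q m ≤ Q n := by
  intro x hx
  obtain ⟨s, rfl⟩ := mem_Q.1 hx
  exact (Q n).smul_mem s (yy_mem_Q h)

theorem mem_K {x : R0} : x ∈ K ↔ ∃ m, x ∈ Q m := by
  rw [K, Submodule.mem_iSup_of_directed]
  exact (directed_of_isDirected_le (fun m n h => Q_mono h))

/-- the section used for `K` -/
noncomputable def κ (m : ℕ) : R0 →ₗ[ℚ] R0 := ev (fun b => match b with
  | .y j i _ => if i = m then yy j 0 else 0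
  | _ => 0)

/-- a section -/
noncomputable def hh (m : ℕ) : R0 →ₗ[ℚ] R0 := ev (fun b => match b with
  | .y j i _ => if i = 0 then tt j m else 0
  | _ => 0)

/-- a projection -/
noncomputable def lam (m : ℕ) : R0 →ₗ[ℚ] R0 := ev (fun b => match b with
  | .y j i _ => if i = 0 ∧ j < m then yy j 0 else 0
  | _ => 0)

theorem κ_yy {j i m : ℕ} (h : i ≤ j) : κ m (yy j i) = if i = m then yy j 0 else 0 := by
  rw [κ, yy, ev_β _ rfl, Y_of h]

theorem κ_t (j i m : ℕ) (h : j ≤ i) : κ m (β (B0.t j i h)) = 0 := by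
  rw [κ, ev_β _ rfl]

theorem κ_z (m : ℕ) : κ m z = 0 := by
  rw [κ, ev_z _ rfl]

theorem κ_one (m : ℕ) : κ m (β B0.one) = 0 := by
  rw [κ, ev_β _ rfl]

theorem hh_yy {j m : ℕ} : hh m (yy j 0) = tt j m := by
  rw [hh, yy, ev_β _ rfl, Y_of (Nat.zero_le j)]
  exact if_pos rfl

theorem lam_yy {j m : ℕ} : lam m (yy j 0) = if j < m then yy j 0 else 0 := by
  rw [lam, yy, ev_β _ rfl, Y_of (Nat.zero_le j)]
  simp [yy, Y_of (Nat.zero_le j)]

theorem homA (m : ℕ) (s : R0) : s * tt m m = hh m (s * yy m 0) + κ m s * tt 0 m := by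
  have hm : (0 : ℕ) ≤ m := Nat.zero_le m
  induction s using ind with
  | h0 => rw [tt, z_mul_β, yy, z_mul_β, map_zero, κ_z, zero_mul, zero_add]
  | hb b =>
    cases b with
    | zero => rw [β_zero, zero_mul, zero_mul, map_zero, map_zero, zero_mul, zero_add]
    | one =>
      have h1 : β B0.one * tt m m = tt m m := by rw [tt, β_mul]; rfl
      have h2 : β B0.one * yy m 0 = yy m 0 := by rw [yy, β_mul]; rfl
      rw [h1, h2, κ_one, zero_mul, add_zero, hh_yy]
    | t j i h =>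
      rw [κ_t, zero_mul, add_zero]
      by_cases hi : i = m
      · subst hi
        rw [← T_of h]
        change tt j i * tt i i = hh i (tt j i * yy i 0)
        rw [tt_mul_tt h le_rfl, tt_mul_yy h hm, hh_yy]
      · have h1 : β (B0.t j i h) * tt m m = 0 := by
          rw [tt, β_mul, T_of le_rfl, B0.t_mul_t, if_neg hi, β_zero]
        have h2 : β (B0.t j i h) * yy m 0 = 0 := by
          rw [yy, β_mul, Y_of hm, B0.t_mul_y, if_neg hi, β_zero]
        rw [h1, h2, map_zero]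
    | y j i h =>
      rw [← Y_of h]
      change yy j i * tt m m = hh m (yy j i * yy m 0) + κ m (yy j i) * tt 0 m
      rw [yy_mul_yy, map_zero, zero_add, κ_yy h]
      by_cases hi : i = m
      · subst hi
        rw [if_pos rfl, yy_mul_tt h le_rfl, yy_mul_tt (Nat.zero_le j) hm]
      · rw [if_neg hi, zero_mul, yy, tt, β_mul, Y_of h, T_of le_rfl, B0.y_mul_t, if_neg hi, β_zero]
  | hadd x y hx hy => rw [add_mul, add_mul, map_add, map_add, add_mul, hx, hy]; abel
  | hsmul c x hx =>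
    rw [smul_mul_assoc, smul_mul_assoc, map_smul, map_smul, smul_mul_assoc, hx, smul_add]

theorem homB (m n : ℕ) (s : R0) :
    s * yy n 0 = κ m (s * yy n 0 * tt 0 m) + lam m (s * yy n 0) := by
  have key : ∀ j, yy j 0 = κ m (yy j 0 * tt 0 m) + lam m (yy j 0) := by
    intro j
    rw [yy_mul_tt (Nat.zero_le j) (Nat.zero_le m), lam_yy]
    by_cases hj : j < m
    · rw [if_pos hj, yy_zero (show ¬ m ≤ j by omega), map_zero, zero_add]
    · rw [if_neg hj, κ_yy (by omega), if_pos rfl, add_zero]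
  induction s using ind with
  | h0 => rw [yy, z_mul_β, zero_mul, map_zero, map_zero, zero_add]
  | hb b =>
    obtain ⟨j, _, hj | hj⟩ := β_mul_yy b n
    · rw [hj]
      exact key j
    · rw [hj, zero_mul, map_zero, map_zero, zero_add]
  | hadd x y hx hy =>
    rw [add_mul, add_mul, map_add, map_add]
    nth_rewrite 1 [hx]
    nth_rewrite 1 [hy]
    abel
  | hsmul c x hx =>
    rw [smul_mul_assoc, smul_mul_assoc, map_smul, map_smul, ← smul_add, ← hx]

theorem κ_mem (m : ℕ) (s : R0) : κ m s ∈ K := by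
  induction s using ind with
  | h0 => rw [κ_z]; exact K.zero_mem
  | hb b =>
    cases b with
    | zero => rw [β_zero, map_zero]; exact K.zero_mem
    | one => rw [κ_one]; exact K.zero_mem
    | t j i h => rw [κ_t]; exact K.zero_mem
    | y j i h =>
      rw [← Y_of h]
      change κ m (yy j i) ∈ K
      rw [κ_yy h]
      split_ifs
      · exact mem_K.2 ⟨j, yy_mem_Q le_rfl⟩
      · exact K.zero_mem
  | hadd x y hx hy => rw [map_add]; exact K.add_mem hx hy
  | hsmul c x hx => rw [map_smul]; exact K.smul_of_tower_mem c hx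

theorem lam_mem (m : ℕ) (s : R0) : lam m s ∈ Q' m := by
  induction s using ind with
  | h0 => rw [lam, ev_z _ rfl]; exact (Q' m).zero_mem
  | hb b =>
    rw [lam, ev_β _ rfl]
    cases b with
    | zero => exact (Q' m).zero_mem
    | one => exact (Q' m).zero_mem
    | t j i h => exact (Q' m).zero_mem
    | y j i h =>
      change (if i = 0 ∧ j < m then yy j 0 else 0) ∈ Q' m
      split_ifs with hj
      · obtain ⟨m', rfl⟩ : ∃ m', m = m' + 1 := ⟨m - 1, by omega⟩
        exact yy_mem_Q (by omega)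
      · exact (Q' m).zero_mem
  | hadd x y hx hy => rw [map_add]; exact (Q' m).add_mem hx hy
  | hsmul c x hx => rw [map_smul]; exact (Q' m).smul_of_tower_mem c hx

theorem P_map (m : ℕ) : (P m).map (rm (yy m 0)) = Q m := by
  rw [P, ← Submodule.map_comp, rm_comp, tt_mul_yy le_rfl (Nat.zero_le m), Q]

theorem P_inf (m : ℕ) : P m ⊓ LinearMap.ker (rm (yy m 0)) = L m := by
  apply le_antisymm
  · rintro x ⟨hx, hx'⟩
    have h1 : x * tt m m = x := mem_P.1 hx
    have h2 : x * yy m 0 = 0 := hx'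
    have h3 := homA m x
    rw [h1, h2, map_zero, zero_add] at h3
    exact ⟨κ m x, κ_mem m x, h3.symm⟩
  · rintro _ ⟨u, hu, rfl⟩
    obtain ⟨n, hn⟩ := mem_K.1 hu
    obtain ⟨s, rfl⟩ := mem_Q.1 hn
    refine ⟨mem_P.2 ?_, ?_⟩
    · rw [rm_apply, mul_assoc, tt_mul_tt (Nat.zero_le m) le_rfl]
    · change s * yy n 0 * tt 0 m * yy m 0 = 0
      rw [mul_assoc, tt_mul_yy (Nat.zero_le m) (Nat.zero_le m), mul_assoc, yy_mul_yy, mul_zero]

theorem K_inf (m : ℕ) : K ⊓ LinearMap.ker (rm (tt 0 m)) = Q' m := by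
  apply le_antisymm
  · rintro x ⟨hx, hx'⟩
    obtain ⟨n, hn⟩ := mem_K.1 hx
    obtain ⟨s, rfl⟩ := mem_Q.1 hn
    have h2 : s * yy n 0 * tt 0 m = 0 := hx'
    have h3 := homB m n s
    rw [h2, map_zero, zero_add] at h3
    rw [h3]
    exact lam_mem m _
  · cases m with
    | zero => exact bot_le
    | succ m =>
      intro x hx
      refine ⟨mem_K.2 ⟨m, hx⟩, ?_⟩
      obtain ⟨s, rfl⟩ := mem_Q.1 hx
      change s * yy m 0 * tt 0 (m + 1) = 0
      rw [mul_assoc, yy_mul_tt (Nat.zero_le m) (Nat.zero_le _), yy_zero (by omega), mul_zero]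

end Pool.Agent.Lib.MP_c052b4_al.VG
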