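import Pool.Agent.Lib.MP_c052b4_al.KOneCalc

/-!
# The logarithmic derivative at zero, with values in a trace
-/

set_option autoImplicit false
set_option linter.unusedSectionVars false

namespace Pool.Agent.Lib.MP_c052b4_al.VG

open Matrix Polynomial

variable {S : Type} [Ring S] (τ : S →+ ℚ) (hτ : ∀ a b, τ (a * b) = τ (b * a))
  {n m : Type*} [Fintype n] [DecidableEq n] [Fintype m] [DecidableEq m]

/-- coefficient matrices -/
noncomputable def co (k : ℕ) (M : Matrix n n S[X]) : Matrix n n S := M.map (fun p => p.coeff k)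

theorem co_zero_mul (A B : Matrix n n S[X]) : co 0 (A * B) = co 0 A * co 0 B := by
  ext i j
  simp only [co, Matrix.map_apply, Matrix.mul_apply, Polynomial.finsetSum_coeff,
    Polynomial.mul_coeff_zero]

theorem co_one_mul (A B : Matrix n n S[X]) :
    co 1 (A * B) = co 0 A * co 1 B + co 1 A * co 0 B := by
  ext i j
  simp only [co, Matrix.map_apply, Matrix.mul_apply, Polynomial.finsetSum_coeff,
    Polynomial.mul_coeff_one, Matrix.add_apply, Finset.sum_add_distrib]

theorem co_zero_one : co 0 (1 : Matrix n n S[X]) = 1 := by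
  ext i j
  rw [co, Matrix.map_apply, Matrix.one_apply, Matrix.one_apply]
  split_ifs <;> simp

theorem co_one_one : co 1 (1 : Matrix n n S[X]) = 0 := by
  ext i j
  rw [co, Matrix.map_apply, Matrix.one_apply, Matrix.zero_apply]
  split_ifs
  · rw [Polynomial.coeff_one, if_neg one_ne_zero]
  · simp

/-- the trace with values in `ℚ` -/
noncomputable def tr (M : Matrix n n S) : ℚ := τ (Matrix.trace M)

theorem tr_add (M N : Matrix n n S) : tr τ (M + N) = tr τ M + tr τ N := by
  rw [tr, Matrix.trace_add, map_add]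
  rfl

include hτ in
theorem tr_comm (M N : Matrix n n S) : tr τ (M * N) = tr τ (N * M) := by
  simp only [tr, Matrix.trace, Matrix.diag_apply, Matrix.mul_apply, map_sum]
  rw [Finset.sum_comm]
  exact Finset.sum_congr rfl (fun i _ => Finset.sum_congr rfl (fun j _ => hτ _ _))

/-- the logarithmic derivative at zero -/
noncomputable def dl (U : (Matrix n n S[X])ˣ) : ℚ :=
  tr τ (co 0 ((U⁻¹ : (Matrix n n S[X])ˣ) : Matrix n n S[X]) * co 1 (U : Matrix n n S[X]))

include hτ in
theorem dl_mul (U V : (Matrix n n S[X])ˣ) : dl τ (U * V) = dl τ U + dl τ V := by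
  have h1 : co 0 (V : Matrix n n S[X]) * co 0 ((V⁻¹ : (Matrix n n S[X])ˣ) : Matrix n n S[X]) = 1 := by
    rw [← co_zero_mul, Units.mul_inv, co_zero_one]
  have h2 : co 0 ((U⁻¹ : (Matrix n n S[X])ˣ) : Matrix n n S[X]) * co 0 (U : Matrix n n S[X]) = 1 := by
    rw [← co_zero_mul, Units.inv_mul, co_zero_one]
  rw [dl, _root_.mul_inv_rev, Units.val_mul, Units.val_mul, co_zero_mul, co_one_mul, mul_add, tr_add,
    mul_assoc, ← mul_assoc (co 0 ((U⁻¹ : (Matrix n n S[X])ˣ) : Matrix n n S[X])), h2, one_mul,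
    add_comm, tr_comm τ hτ (_ * _) (_ * _), mul_assoc, ← mul_assoc (co 0 (V : Matrix n n S[X])),
    h1, one_mul, tr_comm τ hτ]
  rfl

theorem dl_one : dl τ (1 : (Matrix n n S[X])ˣ) = 0 := by
  rw [dl, Units.val_one, co_one_one, mul_zero, tr, Matrix.trace_zero, map_zero]

theorem dl_rU (σ : m ≃ n) (A : (Matrix m m S[X])ˣ) : dl τ (rU σ A) = dl τ A := by
  have h : ∀ M N : Matrix m m S[X],
      co 0 (M.submatrix σ.symm σ.symm) * co 1 (N.submatrix σ.symm σ.symm) =
      (co 0 M * co 1 N).submatrix σ.symm σ.symm := by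
    intro M N
    change (co 0 M).submatrix σ.symm σ.symm * (co 1 N).submatrix σ.symm σ.symm = _
    rw [Matrix.submatrix_mul_equiv]
  have h2 : ∀ M : Matrix m m S, tr τ (M.submatrix σ.symm σ.symm) = tr τ M := by
    intro M
    rw [tr, tr, Matrix.trace, Matrix.trace]
    congr 1
    exact Equiv.sum_comp σ.symm (fun i => M.diag i)
  rw [dl]
  change tr τ (co 0 (((A⁻¹ : (Matrix m m S[X])ˣ) : Matrix m m S[X]).submatrix σ.symm σ.symm) *
    co 1 ((A : Matrix m m S[X]).submatrix σ.symm σ.symm)) = _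
  rw [h, h2]
  rfl

theorem dl_bl (A : (Matrix m m S[X])ˣ) (B : (Matrix n n S[X])ˣ) :
    dl τ (bl A B) = dl τ A + dl τ B := by
  have hc : ∀ (k : ℕ) (M : Matrix m m S[X]) (N : Matrix n n S[X]),
      co k (fromBlocks M 0 0 N) = fromBlocks (co k M) 0 0 (co k N) := by
    intro k M N
    rw [co, Matrix.fromBlocks_map]
    congr 1
  rw [dl]
  change tr τ (co 0 (fromBlocks ((A⁻¹ : (Matrix m m S[X])ˣ) : Matrix m m S[X]) 0 0
    ((B⁻¹ : (Matrix n n S[X])ˣ) : Matrix n n S[X])) *
    co 1 (fromBlocks (A : Matrix m m S[X]) 0 0 (B : Matrix n n S[X]))) = _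
  rw [hc, hc, fromBlocks_multiply, tr, Matrix.trace, Fintype.sum_sum_type, map_add]
  simp only [Matrix.mul_zero, Matrix.zero_mul, add_zero, zero_add, Matrix.diag_apply,
    Matrix.fromBlocks_apply₁₁, Matrix.fromBlocks_apply₂₂]
  rfl

/-- the homomorphism on `GL_k` -/
noncomputable def dlHom (k : ℕ) : (Matrix (Fin k) (Fin k) S[X])ˣ →* Multiplicative ℚ where
  toFun U := Multiplicative.ofAdd (dl τ U)
  map_one' := by rw [dl_one]; rfl
  map_mul' U V := by rw [dl_mul τ hτ]; rfl

/-- the homomorphism on `K₁` -/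
noncomputable def dK : KOne S[X] →+ ℚ :=
  KOne.desc (Omega.lift (stabHom S[X]) (fun k => dlHom τ hτ k) (by
    intro k A
    change Multiplicative.ofAdd (dl τ (rU finSumFinEquiv (bl A 1))) = Multiplicative.ofAdd (dl τ A)
    rw [dl_rU, dl_bl, dl_one, add_zero]))

theorem dK_kf (k : ℕ) (A : (Matrix (Fin k) (Fin k) S[X])ˣ) : dK τ hτ (kf k A) = dl τ A := rfl

/-- the unit `1 - xT` for an element of square zero -/
noncomputable def ux (x : S) (hx : x * x = 0) : (Matrix (Fin 1) (Fin 1) S[X])ˣ :=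
  Units.map (Matrix.scalar (Fin 1) : S[X] →+* Matrix (Fin 1) (Fin 1) S[X]).toMonoidHom
    { val := 1 - C x * X
      inv := 1 + C x * X
      val_inv := by
        have h : C x * X * (C x * X) = (0 : S[X]) := by
          rw [mul_assoc, ← mul_assoc X, X_mul_C, mul_assoc, ← mul_assoc (C x), ← C_mul, hx, C_0,
            zero_mul]
        rw [sub_mul, one_mul, mul_add, mul_one, h]
        abel
      inv_val := by
        have h : C x * X * (C x * X) = (0 : S[X]) := by
          rw [mul_assoc, ← mul_assoc X, X_mul_C, mul_assoc, ← mul_assoc (C x), ← C_mul, hx, C_0,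
            zero_mul]
        rw [add_mul, one_mul, mul_sub, mul_one, h]
        abel }

theorem dl_ux (x : S) (hx : x * x = 0) : dl τ (ux x hx) = - τ x := by
  rw [dl, tr]
  have h0 : co 0 (((ux x hx)⁻¹ : (Matrix (Fin 1) (Fin 1) S[X])ˣ) : Matrix (Fin 1) (Fin 1) S[X]) =
      1 := by
    ext i j
    rw [Subsingleton.elim i j]
    change (Matrix.diagonal (fun _ : Fin 1 => (1 + C x * X : S[X])) j j).coeff 0 = _
    rw [Matrix.diagonal_apply_eq, Matrix.one_apply_eq, coeff_add, coeff_C_mul, coeff_X_zero,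
      mul_zero, add_zero, coeff_one_zero]
  have h1 : co 1 ((ux x hx : (Matrix (Fin 1) (Fin 1) S[X])ˣ) : Matrix (Fin 1) (Fin 1) S[X]) =
      Matrix.diagonal (fun _ : Fin 1 => -x) := by
    ext i j
    rw [Subsingleton.elim i j]
    change (Matrix.diagonal (fun _ : Fin 1 => (1 - C x * X : S[X])) j j).coeff 1 = _
    rw [Matrix.diagonal_apply_eq, Matrix.diagonal_apply_eq, coeff_sub, coeff_C_mul, coeff_X_one,
      mul_one, coeff_one, if_neg one_ne_zero, zero_sub]
  rw [h0, h1, one_mul, Matrix.trace_diagonal, Finset.sum_const, Finset.card_univ, Fintype.card_fin,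
    one_smul, map_neg]

theorem map_ux (x : S) (hx : x * x = 0) :
    KOne.map (Polynomial.constantCoeff : S[X] →+* S) (kf 1 (ux x hx)) = 0 := by
  rw [KOne.map_kf]
  have h : mU (Polynomial.constantCoeff : S[X] →+* S) (ux x hx) = 1 := by
    apply Units.ext
    rw [coe_mU]
    ext i j
    rw [Subsingleton.elim i j]
    change (Matrix.diagonal (fun _ : Fin 1 => (1 - C x * X : S[X])) j j).coeff 0 = _
    rw [Matrix.diagonal_apply_eq, Units.val_one, Matrix.one_apply_eq, coeff_sub, coeff_C_mul,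
      coeff_X_zero, mul_zero, sub_zero, coeff_one_zero]
  rw [h, kf_one]

include hτ in
/-- a trace which does not vanish on an element of square zero detects a nonzero element of
`NK₁` -/
theorem nk_ne (x : S) (hx : x * x = 0) (h : τ x ≠ 0) : ∃ w : KOne S[X], w ≠ 0 ∧
    KOne.map (Polynomial.constantCoeff : S[X] →+* S) w = 0 := by
  refine ⟨kf 1 (ux x hx), ?_, map_ux x hx⟩
  intro h0
  have h1 := dK_kf τ hτ 1 (ux x hx)
  rw [h0, map_zero, dl_ux, eq_comm, neg_eq_zero] at h1
  exact h h1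

end Pool.Agent.Lib.MP_c052b4_al.VG
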