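import Pool.Agent.Lib.MP_c052b4_al.VG.Mods

/-!
# The left ideals are in every class; characters
-/

set_option autoImplicit false

namespace Pool.Agent.Lib.MP_c052b4_al.VG

open DirectSum

variable {C : ∀ (M : Type) [AddCommGroup M] [Module R0 M], Prop}

/-- the transition map `P n → P (n+1)` -/
noncomputable def fP (n : ℕ) : ↥(P n) →ₗ[R0] ↥(P (n + 1)) :=
  (rm (tt n (n + 1))).restrict (fun x _ => mem_P.2 (by
    rw [rm_apply, mul_assoc, tt_mul_tt (Nat.le_succ n) le_rfl]))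

/-- the map `P n → K` -/
noncomputable def gP (n : ℕ) : ↥(P n) →ₗ[R0] ↥K :=
  (rm (yy n 0)).restrict (fun x _ => mem_K.2 ⟨n, mem_Q.2 ⟨x, rfl⟩⟩)

theorem it_fP (n k : ℕ) (x : ↥(P n)) : (it fP n k x).1 = x.1 * tt n (n + k) := by
  induction k with
  | zero => exact (mem_P.1 x.2).symm
  | succ k ih =>
    change (it fP n k x).1 * tt (n + k) (n + k + 1) = _
    rw [ih, mul_assoc, tt_mul_tt (Nat.le_add_right n k) (Nat.le_succ _)]
    rfl

theorem K_mem (hC : IsCls R0 C) : C ↥K := by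
  refine seq_of hC (fun n => ↥(P n)) fP ↥K gP ?_ ?_ ?_
    (fun n => idem_of hC (tt n n) (tt_mul_tt le_rfl le_rfl))
  · intro n x
    apply Subtype.ext
    change x.1 * tt n (n + 1) * yy (n + 1) 0 = x.1 * yy n 0
    rw [mul_assoc, tt_mul_yy (Nat.le_succ n) (Nat.zero_le _)]
  · rintro ⟨l, hl⟩
    obtain ⟨n, hn⟩ := mem_K.1 hl
    obtain ⟨s, rfl⟩ := mem_Q.1 hn
    refine ⟨n, ⟨s * tt n n, mem_P.2 (by rw [mul_assoc, tt_mul_tt le_rfl le_rfl])⟩, ?_⟩
    apply Subtype.ext
    change s * tt n n * yy n 0 = s * yy n 0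
    rw [mul_assoc, tt_mul_yy le_rfl (Nat.zero_le _)]
  · intro n x hx
    have h0 : x.1 * yy n 0 = 0 := congrArg Subtype.val hx
    have h1 : x.1 ∈ L n := by
      rw [← P_inf n]
      exact ⟨x.2, h0⟩
    obtain ⟨u, hu, hux⟩ := h1
    obtain ⟨j, hj⟩ := mem_K.1 hu
    obtain ⟨v, rfl⟩ := mem_Q.1 hj
    refine ⟨j + 1, Subtype.ext ?_⟩
    rw [it_fP, ← hux]
    change v * yy j 0 * tt 0 n * tt n (n + (j + 1)) = 0
    rw [mul_assoc, mul_assoc, tt_mul_tt (Nat.zero_le n) (Nat.le_add_right _ _),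
      yy_mul_tt (Nat.zero_le j) (Nat.zero_le _), yy_zero (show ¬ n + (j + 1) ≤ j by omega),
      mul_zero]

theorem Q'_mem (hC : IsCls R0 C) (m : ℕ) : C ↥(Q' m) := by
  induction m with
  | zero => exact bot_of hC
  | succ m ih =>
    have h1 : C ↥(L m) := by
      refine map_of hC K (rm (tt 0 m)) ?_ (K_mem hC)
      rw [K_inf m]
      exact ih
    change C ↥(Q m)
    rw [← P_map m]
    refine map_of hC (P m) (rm (yy m 0)) ?_ (idem_of hC (tt m m) (tt_mul_tt le_rfl le_rfl))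
    rw [P_inf m]
    exact h1

theorem Q_mem (hC : IsCls R0 C) (m : ℕ) : C ↥(Q m) := Q'_mem hC (m + 1)

/-- modules on which the ring acts through a character -/
theorem chi_of (hC : IsCls R0 C) (V0 V : Type) [AddCommGroup V0] [Module R0 V0]
    [AddCommGroup V] [Module R0 V] (χ : R0 → ℚ) (v0 : V0)
    (h0 : ∀ (r : R0) (v : V0), r • v = algebraMap ℚ R0 (χ r) • v)
    (hV : ∀ (r : R0) (v : V), r • v = algebraMap ℚ R0 (χ r) • v)
    (hspan : ∀ v : V0, ∃ c : ℚ, algebraMap ℚ R0 c • v0 = v) (hv0 : v0 ≠ 0)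
    (h : C V0) : C V := by
  let i0 : Module ℚ V0 := Module.compHom V0 (algebraMap ℚ R0)
  let i1 : Module ℚ V := Module.compHom V (algebraMap ℚ R0)
  have hbij : Function.Bijective (LinearMap.toSpanSingleton ℚ V0 v0) := by
    constructor
    · rw [injective_iff_map_eq_zero]
      intro c hc
      by_contra hne
      apply hv0
      have h1 : c • v0 = 0 := hc
      exact (smul_eq_zero.1 h1).resolve_left hne
    · intro v
      obtain ⟨c, hc⟩ := hspan v
      exact ⟨c, hc⟩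
  let e0 : ℚ ≃ₗ[ℚ] V0 := LinearEquiv.ofBijective _ hbij
  let b := Module.Basis.ofVectorSpace ℚ V
  let ι : Type := Module.Basis.ofVectorSpaceIndex ℚ V
  classical
  let e : (⨁ _ : ι, V0) ≃ₗ[ℚ] V :=
    (DFinsupp.mapRange.linearEquiv (fun _ : ι => e0.symm)).trans
      ((finsuppLequivDFinsupp ℚ).symm.trans b.repr.symm)
  have hr : ∀ (r : R0) (x : ⨁ _ : ι, V0), r • x = (χ r) • x := by
    intro r x
    apply DFinsupp.ext
    intro i
    exact h0 r (x i)
  refine hC.iso (⨁ _ : ι, V0) V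
    { toFun := e
      map_add' := map_add e
      map_smul' := fun r x => ?_
      invFun := e.symm
      left_inv := e.symm_apply_apply
      right_inv := e.apply_symm_apply } (hC.sum ι (fun _ => V0) (fun _ => h))
  rw [hr, map_smul]
  exact (hV r (e x)).symm

end Pool.Agent.Lib.MP_c052b4_al.VG
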