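import Pool.Agent.Lib.MP_c052b4_al.VG.Reg1

/-!
# All modules are in every class
-/

set_option autoImplicit false

namespace Pool.Agent.Lib.MP_c052b4_al.VG

open DirectSum

variable {C : ∀ (M : Type) [AddCommGroup M] [Module R0 M], Prop}

/-- the idempotents -/
noncomputable def E (n : ℕ) : R0 := ∑ j ∈ Finset.range n, tt j j

theorem E_succ (n : ℕ) : E (n + 1) = E n + tt n n := Finset.sum_range_succ _ _

theorem tt_mul_tt_ne {l j j' i : ℕ} (h : j ≠ j') : tt l j * tt j' i = 0 := by
  by_cases h1 : l ≤ j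
  · by_cases h2 : j' ≤ i
    · rw [tt, tt, β_mul, T_of h1, T_of h2, B0.t_mul_t, if_neg h, β_zero]
    · rw [tt_zero h2, mul_zero]
  · rw [tt_zero h1, zero_mul]

theorem tt_mul_yy_ne {l j j' i : ℕ} (h : j ≠ j') : tt l j * yy j' i = 0 := by
  by_cases h1 : l ≤ j
  · by_cases h2 : i ≤ j'
    · rw [tt, yy, β_mul, T_of h1, Y_of h2, B0.t_mul_y, if_neg h, β_zero]
    · rw [yy_zero h2, mul_zero]
  · rw [tt_zero h1, zero_mul]

theorem tt_mul_E (l j n : ℕ) : tt l j * E n = if j < n then tt l j else 0 := by
  by_cases hlj : l ≤ j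
  · induction n with
    | zero => rw [E, Finset.range_zero, Finset.sum_empty, mul_zero, if_neg (by omega)]
    | succ n ih =>
      rw [E_succ, mul_add, ih]
      rcases lt_trichotomy j n with h | h | h
      · rw [if_pos h, if_pos (by omega), tt_mul_tt_ne (by omega), add_zero]
      · subst h
        rw [if_neg (by omega), if_pos (by omega), tt_mul_tt hlj le_rfl, zero_add]
      · rw [if_neg (by omega), if_neg (by omega), tt_mul_tt_ne (by omega), add_zero]
  · rw [tt_zero hlj, zero_mul, ite_self]

theorem E_mul_tt (l j n : ℕ) : E n * tt l j = if l < n then tt l j else 0 := by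
  by_cases hlj : l ≤ j
  · induction n with
    | zero => rw [E, Finset.range_zero, Finset.sum_empty, zero_mul, if_neg (by omega)]
    | succ n ih =>
      rw [E_succ, add_mul, ih]
      rcases lt_trichotomy l n with h | h | h
      · rw [if_pos h, if_pos (by omega), tt_mul_tt_ne (by omega), add_zero]
      · subst h
        rw [if_neg (by omega), if_pos (by omega), tt_mul_tt le_rfl hlj, zero_add]
      · rw [if_neg (by omega), if_neg (by omega), tt_mul_tt_ne (by omega), add_zero]
  · rw [tt_zero hlj, mul_zero, ite_self]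

theorem E_mul_yy (l j n : ℕ) : E n * yy l j = if l < n then yy l j else 0 := by
  by_cases hlj : j ≤ l
  · induction n with
    | zero => rw [E, Finset.range_zero, Finset.sum_empty, zero_mul, if_neg (by omega)]
    | succ n ih =>
      rw [E_succ, add_mul, ih]
      rcases lt_trichotomy l n with h | h | h
      · rw [if_pos h, if_pos (by omega), tt_mul_yy_ne (by omega), add_zero]
      · subst h
        rw [if_neg (by omega), if_pos (by omega), tt_mul_yy le_rfl hlj, zero_add]
      · rw [if_neg (by omega), if_neg (by omega), tt_mul_yy_ne (by omega), add_zero]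
  · rw [yy_zero hlj, mul_zero, ite_self]

theorem E_mul_E {m n : ℕ} (h : m ≤ n) : E n * E m = E m := by
  rw [E, E, Finset.mul_sum]
  refine Finset.sum_congr rfl (fun j hj => ?_)
  have hj' : j < m := Finset.mem_range.1 hj
  have := E_mul_tt j j n
  rw [if_pos (by omega)] at this
  exact this

/-- characters given on the basis -/
noncomputable def chm (m : ℕ) : R0 →ₗ[ℚ] ℚ := ev (fun b => match b with
  | .one => 1
  | .t j i _ => if i = m ∧ j = m then 1 else 0
  | _ => 0)

noncomputable def chinf : R0 →ₗ[ℚ] ℚ := ev (fun b => match b with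
  | .one => 1
  | _ => 0)

noncomputable def chz : R0 →ₗ[ℚ] ℚ := ev (fun _ => 1)

theorem alg_smul {M : Type} [AddCommGroup M] [Module R0 M] [Module ℚ M] [IsScalarTower ℚ R0 M]
    (c : ℚ) (x : M) : algebraMap ℚ R0 c • x = c • x := algebraMap_smul R0 c x

theorem smul_eq (c : ℚ) (x : R0) : algebraMap ℚ R0 c * x = c • x := (Algebra.smul_def c x).symm

theorem homC (m : ℕ) (s : R0) : s * yy m 0 - chm m s • yy m 0 ∈ Q' m := by
  have hm : (0 : ℕ) ≤ m := Nat.zero_le m
  have hlow : ∀ j, j < m → yy j 0 ∈ Q' m := by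
    intro j hj
    obtain ⟨m', rfl⟩ : ∃ m', m = m' + 1 := ⟨m - 1, by omega⟩
    exact yy_mem_Q (by omega)
  induction s using ind with
  | h0 =>
    rw [yy, z_mul_β, chm, ev_z _ rfl, zero_smul, sub_zero]
    exact (Q' m).zero_mem
  | hb b =>
    rw [chm, ev_β _ rfl]
    cases b with
    | zero =>
      rw [β_zero, zero_mul]
      change (0 : R0) - (0 : ℚ) • yy m 0 ∈ Q' m
      rw [zero_smul, sub_zero]
      exact (Q' m).zero_mem
    | one =>
      change β B0.one * yy m 0 - (1 : ℚ) • yy m 0 ∈ Q' m
      have h2 : β B0.one * yy m 0 = yy m 0 := by rw [yy, β_mul]; rfl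
      rw [h2, one_smul, sub_self]
      exact (Q' m).zero_mem
    | t j i h =>
      change β (B0.t j i h) * yy m 0 - (if i = m ∧ j = m then (1 : ℚ) else 0) • yy m 0 ∈ Q' m
      rw [← T_of h]
      change tt j i * yy m 0 - (if i = m ∧ j = m then (1 : ℚ) else 0) • yy m 0 ∈ Q' m
      by_cases hi : i = m
      · subst hi
        rw [tt_mul_yy h hm]
        by_cases hj : j = i
        · subst hj
          rw [if_pos ⟨rfl, rfl⟩, one_smul, sub_self]
          exact (Q' j).zero_mem
        · rw [if_neg (fun hh => hj hh.2), zero_smul, sub_zero]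
          exact hlow j (by omega)
      · rw [tt_mul_yy_ne hi, if_neg (fun hh => hi hh.1), zero_smul, sub_zero]
        exact (Q' m).zero_mem
    | y j i h =>
      change β (B0.y j i h) * yy m 0 - (0 : ℚ) • yy m 0 ∈ Q' m
      rw [← Y_of h]
      change yy j i * yy m 0 - (0 : ℚ) • yy m 0 ∈ Q' m
      rw [yy_mul_yy, zero_smul, sub_zero]
      exact (Q' m).zero_mem
  | hadd x y hx hy =>
    have := (Q' m).add_mem hx hy
    rw [map_add, add_smul, add_mul]
    convert this using 1
    abel
  | hsmul c x hx =>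
    have := (Q' m).smul_of_tower_mem c hx
    rw [map_smul, smul_assoc, smul_mul_assoc, ← smul_sub]
    exact this

theorem yy_notMem (m : ℕ) : yy m 0 ∉ Q' m := by
  intro h
  cases m with
  | zero =>
    have h1 : yy 0 0 = 0 := h
    have h2 : ev (fun b => if b = B0.y 0 0 le_rfl then (1 : ℚ) else 0) (yy 0 0) = 1 := by
      rw [yy, ev_β _ (by simp), Y_of le_rfl, if_pos rfl]
    rw [h1, map_zero] at h2
    exact zero_ne_one h2
  | succ m =>
    obtain ⟨s, hs⟩ := mem_Q.1 h
    have h2 : ∀ s : R0, ev (fun b => if b = B0.y (m + 1) 0 (Nat.zero_le _) then (1 : ℚ) else 0)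
        (s * yy m 0) = 0 := by
      intro s
      induction s using ind with
      | h0 => rw [yy, z_mul_β, map_zero]
      | hb b =>
        obtain ⟨j, hj, h1 | h1⟩ := β_mul_yy b m
        · rw [h1, yy, ev_β _ (by simp), Y_of (Nat.zero_le j), if_neg]
          intro hh
          injection hh with h3
          omega
        · rw [h1, map_zero]
      | hadd x y hx hy => rw [add_mul, map_add, hx, hy, add_zero]
      | hsmul c x hx => rw [smul_mul_assoc, map_smul, hx, smul_zero]
    have h3 : ev (fun b => if b = B0.y (m + 1) 0 (Nat.zero_le _) then (1 : ℚ) else 0)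
        (yy (m + 1) 0) = 1 := by
      rw [yy, ev_β _ (by simp), Y_of (Nat.zero_le _), if_pos rfl]
    rw [← hs, h2] at h3
    exact zero_ne_one h3

/-- modules on which the ring acts through the character `chm m` -/
theorem chm_of (hC : IsCls R0 C) (m : ℕ) (V : Type) [AddCommGroup V] [Module R0 V]
    (hV : ∀ (r : R0) (v : V), r • v = algebraMap ℚ R0 (chm m r) • v) : C V := by
  have hle : Q' m ≤ Q m := by
    cases m with
    | zero => exact bot_le
    | succ m => exact Q_mono (Nat.le_succ m)
  have hCV : C ↥((Q m).map (Q' m).mkQ) := by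
    refine map_of hC (Q m) (Q' m).mkQ ?_ (Q_mem hC m)
    rw [Submodule.ker_mkQ, inf_eq_right.2 hle]
    exact Q'_mem hC m
  have key : ∀ s : R0, (Q' m).mkQ (s * yy m 0) = algebraMap ℚ R0 (chm m s) • (Q' m).mkQ (yy m 0) := by
    intro s
    rw [← map_smul, ← sub_eq_zero, ← map_sub, Submodule.mkQ_apply, Submodule.Quotient.mk_eq_zero]
    have := homC m s
    rw [← smul_eq] at this
    exact this
  refine chi_of hC ↥((Q m).map (Q' m).mkQ) V (fun r => chm m r)
    ⟨(Q' m).mkQ (yy m 0), ⟨yy m 0, yy_mem_Q le_rfl, rfl⟩⟩ ?_ hV ?_ ?_ hCV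
  · rintro r ⟨_, x, hx, rfl⟩
    obtain ⟨s, rfl⟩ := mem_Q.1 hx
    apply Subtype.ext
    change r • (Q' m).mkQ (s * yy m 0) = algebraMap ℚ R0 (chm m r) • (Q' m).mkQ (s * yy m 0)
    have h1 : r * algebraMap ℚ R0 (chm m s) = algebraMap ℚ R0 (chm m s) * r :=
      (Algebra.commutes _ _).symm
    rw [key s, smul_smul, h1, ← smul_smul, ← map_smul]
    change algebraMap ℚ R0 (chm m s) • (Q' m).mkQ (r * yy m 0) = _
    rw [key r, smul_smul, smul_smul, Algebra.commutes]
  · rintro ⟨_, x, hx, rfl⟩
    obtain ⟨s, rfl⟩ := mem_Q.1 hx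
    refine ⟨chm m s, Subtype.ext ?_⟩
    exact (key s).symm
  · intro h
    have h1 : (Q' m).mkQ (yy m 0) = 0 := congrArg Subtype.val h
    rw [Submodule.mkQ_apply, Submodule.Quotient.mk_eq_zero] at h1
    exact yy_notMem m h1

end Pool.Agent.Lib.MP_c052b4_al.VG
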