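import Pool.Agent.Lib.MP_c052b4_al.VG.Reg2

/-!
# All modules are in every class, continued
-/

set_option autoImplicit false

namespace Pool.Agent.Lib.MP_c052b4_al.VG

open DirectSum

variable {C : ∀ (M : Type) [AddCommGroup M] [Module R0 M], Prop}

/-- the rational scalars act through the algebra map; induction for statements on the action -/
theorem ind_smul {M : Type} [AddCommGroup M] [Module R0 M] (W : Submodule R0 M)
    (g : R0 →ₗ[ℚ] ℚ) (x : M) (h0 : z • x - algebraMap ℚ R0 (g z) • x ∈ W)
    (hb : ∀ b, β b • x - algebraMap ℚ R0 (g (β b)) • x ∈ W) (r : R0) :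
    r • x - algebraMap ℚ R0 (g r) • x ∈ W := by
  induction r using ind with
  | h0 => exact h0
  | hb b => exact hb b
  | hadd r s hr hs =>
    have := W.add_mem hr hs
    rw [map_add, map_add, add_smul, add_smul]
    convert this using 1
    abel
  | hsmul c r hr =>
    have := W.smul_mem (algebraMap ℚ R0 c) hr
    rw [map_smul, smul_eq_mul, map_mul, ← smul_smul, ← smul_eq, ← smul_smul, ← smul_sub]
    exact this

section Low

variable {N : Type} [AddCommGroup N] [Module R0 N] (hz : ∀ x : N, z • x = 0)
  (hY : ∀ (j i : ℕ) (x : N), yy j i • x = 0)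

include hz hY

theorem E_smul_smul (n : ℕ) (r : R0) (x : N) (hx : E n • x = x) : E n • r • x = r • x := by
  induction r using ind with
  | h0 => rw [hz, smul_zero]
  | hb b =>
    cases b with
    | zero => rw [β_zero, zero_smul, smul_zero]
    | one => rw [β_one, sub_smul, one_smul, hz, sub_zero, hx]
    | t j i h =>
      rw [← T_of h]
      change E n • tt j i • x = tt j i • x
      have h1 : tt j i • x = (tt j i * E n) • x := by rw [mul_smul, hx]
      rw [h1, smul_smul, tt_mul_E]
      split_ifs with hi
      · rw [E_mul_tt, if_pos (by omega)]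
      · rw [mul_zero]
    | y j i h =>
      rw [← Y_of h]
      change E n • yy j i • x = yy j i • x
      rw [hY, smul_zero]
  | hadd r s hr hs => rw [add_smul, smul_add, hr, hs]
  | hsmul c r hr =>
    have h1 : (c • r) • x = algebraMap ℚ R0 c • r • x := by rw [smul_smul, smul_eq]
    rw [h1, smul_smul, ← Algebra.commutes, ← smul_smul, hr]

/-- the filtration -/
noncomputable def Fil (n : ℕ) : Submodule R0 N where
  carrier := {x | E n • x = x}
  zero_mem' := smul_zero _
  add_mem' := fun {x y} hx hy => by
    change E n • (x + y) = x + y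
    rw [smul_add, hx, hy]
  smul_mem' := fun r x hx => E_smul_smul hz hY n r x hx

theorem low_of (hC : IsCls R0 C) (hu : ∀ x : N, ∃ n, E n • x = x) : C N := by
  refine union_of hC (Fil hz hY) ?_ hu ?_ ?_
  · intro n x hx
    have hx' : E n • x = x := hx
    change E (n + 1) • x = x
    conv_lhs => rw [← hx']
    rw [smul_smul, E_mul_E (Nat.le_succ n), hx']
  · have : Subsingleton ↥(Fil hz hY 0) := by
      constructor
      rintro ⟨x, hx⟩ ⟨y, hy⟩
      apply Subtype.ext
      have hx' : E 0 • x = x := hx
      have hy' : E 0 • y = y := hy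
      rw [E, Finset.range_zero, Finset.sum_empty, zero_smul] at hx' hy'
      exact hx'.symm.trans hy'
    exact zero_of hC
  · intro n
    refine chm_of hC n _ ?_
    rintro r ⟨_, x, hx, rfl⟩
    apply Subtype.ext
    change r • (Fil hz hY n).mkQ x = algebraMap ℚ R0 (chm n r) • (Fil hz hY n).mkQ x
    rw [← map_smul, ← map_smul, ← sub_eq_zero, ← map_sub, Submodule.mkQ_apply,
      Submodule.Quotient.mk_eq_zero]
    have hx' : E (n + 1) • x = x := hx
    have hEn : E n • (E n • x) = E n • x := by rw [smul_smul, E_mul_E le_rfl]
    refine ind_smul (Fil hz hY n) (chm n) x ?_ ?_ r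
    · rw [hz, chm, ev_z _ rfl, map_zero, zero_smul, sub_zero]
      exact Submodule.zero_mem _
    · intro b
      rw [chm, ev_β _ rfl]
      cases b with
      | zero =>
        change β B0.zero • x - algebraMap ℚ R0 0 • x ∈ _
        rw [β_zero, map_zero, sub_self]
        exact Submodule.zero_mem _
      | one =>
        change β B0.one • x - algebraMap ℚ R0 1 • x ∈ _
        rw [β_one, sub_smul, one_smul, hz, map_one, one_smul, sub_zero, sub_self]
        exact Submodule.zero_mem _
      | t j i h =>
        change β (B0.t j i h) • x - algebraMap ℚ R0 (if i = n ∧ j = n then 1 else 0) • x ∈ _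
        rw [← T_of h]
        change tt j i • x - algebraMap ℚ R0 (if i = n ∧ j = n then 1 else 0) • x ∈ _
        have h1 : tt j i • x = (tt j i * E (n + 1)) • x := by rw [mul_smul, hx']
        by_cases hj : j = n
        · subst hj
          by_cases hi : i = j
          · subst hi
            rw [if_pos ⟨rfl, rfl⟩, map_one, one_smul]
            have h2 : tt i i • x - x = - (E i • x) := by
              conv_lhs => rw [← hx']
              rw [smul_smul, tt_mul_E, if_pos (Nat.lt_succ_self i), E_succ, add_smul]
              abel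
            rw [h2]
            apply Submodule.neg_mem
            exact hEn
          · rw [if_neg (fun hh => hi hh.1), map_zero, zero_smul, sub_zero, h1, tt_mul_E,
              if_neg (by omega), zero_smul]
            exact Submodule.zero_mem _
        · rw [if_neg (fun hh => hj hh.2), map_zero, zero_smul, sub_zero]
          by_cases hi : i < n + 1
          · change E n • tt j i • x = tt j i • x
            rw [smul_smul, E_mul_tt, if_pos (by omega)]
          · rw [h1, tt_mul_E, if_neg hi, zero_smul]
            exact Submodule.zero_mem _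
      | y j i h =>
        change β (B0.y j i h) • x - algebraMap ℚ R0 0 • x ∈ _
        rw [← Y_of h]
        change yy j i • x - algebraMap ℚ R0 0 • x ∈ _
        rw [hY, map_zero, zero_smul, sub_zero]
        exact Submodule.zero_mem _

end Low

/-- the submodule of elements killed by all `yy` -/
noncomputable def annY (N : Type) [AddCommGroup N] [Module R0 N] : Submodule R0 N where
  carrier := {x | ∀ j i, yy j i • x = 0}
  zero_mem' := fun j i => smul_zero _
  add_mem' := fun {x y} hx hy j i => by
    rw [smul_add, hx j i, hy j i, add_zero]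
  smul_mem' := fun r x hx => by
    change ∀ j i, yy j i • r • x = 0
    intro j i
    by_cases hji : i ≤ j
    · induction r using ind with
      | h0 => rw [smul_smul, yy, β_mul_z, zero_smul]
      | hb b =>
        rw [smul_smul, yy, β_mul, Y_of hji]
        cases b with
        | zero => rw [B0.mul_zero'', β_zero, zero_smul]
        | one =>
          have := hx j i
          rw [yy, Y_of hji] at this
          exact this
        | t l k h =>
          rw [B0.y_mul_t]
          split_ifs
          · exact hx j k
          · rw [β_zero, zero_smul]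
        | y l k h => rw [B0.y_mul_y, β_zero, zero_smul]
      | hadd r s hr hs => rw [add_smul, smul_add, hr, hs, add_zero]
      | hsmul c r hr =>
        have h1 : (c • r) • x = algebraMap ℚ R0 c • r • x := by rw [smul_smul, smul_eq]
        rw [h1, smul_smul, ← Algebra.commutes, ← smul_smul, hr, smul_zero]
    · rw [yy_zero hji, zero_smul]

/-- unital modules killed by `z` -/
theorem unital_of (hC : IsCls R0 C) (N : Type) [AddCommGroup N] [Module R0 N]
    (hz : ∀ x : N, z • x = 0) (hu : ∀ x : N, ∃ n, E n • x = x) : C N := by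
  refine of_quot hC (annY N) ?_ ?_
  · refine low_of (N := ↥(annY N)) (fun x => Subtype.ext (hz x.1))
      (fun j i x => Subtype.ext (x.2 j i)) hC (fun x => ?_)
    obtain ⟨n, hn⟩ := hu x.1
    exact ⟨n, Subtype.ext hn⟩
  · refine low_of (N := N ⧸ annY N) (fun x => ?_) (fun j i x => ?_) hC (fun x => ?_)
    · obtain ⟨x, rfl⟩ := (annY N).mkQ_surjective x
      rw [← map_smul, hz, map_zero]
    · obtain ⟨x, rfl⟩ := (annY N).mkQ_surjective x
      rw [← map_smul, Submodule.mkQ_apply, Submodule.Quotient.mk_eq_zero]
      intro j' i'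
      rw [smul_smul, yy_mul_yy, zero_smul]
    · obtain ⟨x, rfl⟩ := (annY N).mkQ_surjective x
      obtain ⟨n, hn⟩ := hu x
      exact ⟨n, by rw [← map_smul, hn]⟩

theorem E_smul_of_le {N : Type} [AddCommGroup N] [Module R0 N] {m n : ℕ} (h : m ≤ n) {x : N}
    (hx : E m • x = x) : E n • x = x := by
  conv_lhs => rw [← hx]
  rw [smul_smul, E_mul_E h, hx]

/-- the unital part of a module killed by `z` -/
noncomputable def uni (N : Type) [AddCommGroup N] [Module R0 N] (hz : ∀ x : N, z • x = 0) :
    Submodule R0 N where
  carrier := {x | ∃ n, E n • x = x}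
  zero_mem' := ⟨0, smul_zero _⟩
  add_mem' := fun {x y} hx hy => by
    obtain ⟨m, hm⟩ := hx
    obtain ⟨n, hn⟩ := hy
    refine ⟨max m n, ?_⟩
    rw [smul_add, E_smul_of_le (le_max_left m n) hm, E_smul_of_le (le_max_right m n) hn]
  smul_mem' := fun r x hx => by
    obtain ⟨m, hm⟩ := hx
    change ∃ n, E n • r • x = r • x
    induction r using ind with
    | h0 => exact ⟨0, by rw [hz, smul_zero]⟩
    | hb b =>
      cases b with
      | zero => exact ⟨0, by rw [β_zero, zero_smul, smul_zero]⟩
      | one => exact ⟨m, by rw [β_one, sub_smul, one_smul, hz, sub_zero, hm]⟩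
      | t j i h =>
        refine ⟨j + 1, ?_⟩
        rw [← T_of h]
        change E (j + 1) • tt j i • x = tt j i • x
        rw [smul_smul, E_mul_tt, if_pos (Nat.lt_succ_self j)]
      | y j i h =>
        refine ⟨j + 1, ?_⟩
        rw [← Y_of h]
        change E (j + 1) • yy j i • x = yy j i • x
        rw [smul_smul, E_mul_yy, if_pos (Nat.lt_succ_self j)]
    | hadd r s hr hs =>
      obtain ⟨a, ha⟩ := hr
      obtain ⟨b, hb⟩ := hs
      refine ⟨max a b, ?_⟩
      rw [add_smul, smul_add, E_smul_of_le (le_max_left a b) ha,
        E_smul_of_le (le_max_right a b) hb]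
    | hsmul c r hr =>
      obtain ⟨a, ha⟩ := hr
      refine ⟨a, ?_⟩
      have h1 : (c • r) • x = algebraMap ℚ R0 c • r • x := by rw [smul_smul, smul_eq]
      rw [h1, smul_smul, ← Algebra.commutes, ← smul_smul, ha]

theorem uni_mem (hC : IsCls R0 C) (N : Type) [AddCommGroup N] [Module R0 N]
    (hz : ∀ x : N, z • x = 0) : C ↥(uni N hz) := by
  refine unital_of hC _ (fun x => Subtype.ext (hz x.1)) (fun x => ?_)
  obtain ⟨n, hn⟩ := x.2
  exact ⟨n, Subtype.ext hn⟩

theorem uni_quot (N : Type) [AddCommGroup N] [Module R0 N] (hz : ∀ x : N, z • x = 0) (r : R0)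
    (v : N ⧸ uni N hz) : r • v = algebraMap ℚ R0 (chinf r) • v := by
  obtain ⟨x, rfl⟩ := (uni N hz).mkQ_surjective v
  rw [← map_smul, ← map_smul, ← sub_eq_zero, ← map_sub, Submodule.mkQ_apply,
    Submodule.Quotient.mk_eq_zero]
  refine ind_smul (uni N hz) chinf x ?_ ?_ r
  · rw [hz, chinf, ev_z _ rfl, map_zero, zero_smul, sub_zero]
    exact Submodule.zero_mem _
  · intro b
    rw [chinf, ev_β _ rfl]
    cases b with
    | zero =>
      change β B0.zero • x - algebraMap ℚ R0 0 • x ∈ _
      rw [β_zero, map_zero, sub_self]
      exact Submodule.zero_mem _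
    | one =>
      change β B0.one • x - algebraMap ℚ R0 1 • x ∈ _
      rw [β_one, sub_smul, one_smul, hz, map_one, one_smul, sub_zero, sub_self]
      exact Submodule.zero_mem _
    | t j i h =>
      change β (B0.t j i h) • x - algebraMap ℚ R0 0 • x ∈ _
      rw [map_zero, zero_smul, sub_zero, ← T_of h]
      refine ⟨j + 1, ?_⟩
      change E (j + 1) • tt j i • x = tt j i • x
      rw [smul_smul, E_mul_tt, if_pos (Nat.lt_succ_self j)]
    | y j i h =>
      change β (B0.y j i h) • x - algebraMap ℚ R0 0 • x ∈ _
      rw [map_zero, zero_smul, sub_zero, ← Y_of h]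
      refine ⟨j + 1, ?_⟩
      change E (j + 1) • yy j i • x = yy j i • x
      rw [smul_smul, E_mul_yy, if_pos (Nat.lt_succ_self j)]

end Pool.Agent.Lib.MP_c052b4_al.VG
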