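import Pool.Agent.Lib.MP_c052b4_al.VG.Seq

/-!
# The ring
-/

set_option autoImplicit false
set_option linter.unusedSimpArgs false
set_option linter.unreachableTactic false
set_option linter.unusedTactic false
set_option linter.unnecessarySeqFocus false

namespace Pool.Agent.Lib.MP_c052b4_al.VG

/-- The arrows `t j i : i → j` for `j ≤ i` and `y j i : i → j` for `i ≤ j`, a zero and a one. -/
inductive B0 : Type
  | zero : B0
  | one : B0
  | t (j i : ℕ) (h : j ≤ i) : B0
  | y (j i : ℕ) (h : i ≤ j) : B0
  deriving DecidableEq

namespace B0

/-- `t j i` if it makes sense, else zero -/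
def T (j i : ℕ) : B0 := if h : j ≤ i then t j i h else zero

/-- `y j i` if it makes sense, else zero -/
def Y (j i : ℕ) : B0 := if h : i ≤ j then y j i h else zero

/-- multiplication -/
def mul : B0 → B0 → B0
  | zero, _ => zero
  | one, b => b
  | t _ _ _, zero => zero
  | t j i h, one => t j i h
  | t l j _, t j' i _ => if j = j' then T l i else zero
  | t l j _, y j' i _ => if j = j' then Y l i else zero
  | y _ _ _, zero => zero
  | y j i h, one => y j i h
  | y l j _, t j' i _ => if j = j' then Y l i else zero
  | y _ _ _, y _ _ _ => zero

theorem mul_zero' (a : B0) : mul a zero = zero := by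
  cases a <;> rfl

theorem mul_one' (a : B0) : mul a one = a := by
  cases a <;> rfl

theorem mul_assoc' (a b c : B0) : mul (mul a b) c = mul a (mul b c) := by
  cases a with
  | zero => rfl
  | one => rfl
  | t l j h =>
    cases b with
    | zero => rfl
    | one => rfl
    | t j' i h' =>
      cases c with
      | zero => rw [mul_zero', mul_zero', mul_zero']
      | one => rw [mul_one', mul_one']
      | t i' m h'' =>
        by_cases h1 : j = j' <;> by_cases h2 : i = i' <;>
        simp only [mul, T, h1, h2, if_true, if_false] <;>
        split_ifs <;> (try simp only [mul, T, h2, if_true, if_false]) <;> (try split_ifs) <;>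
        (first | rfl | omega)
      | y i' m h'' =>
        by_cases h1 : j = j' <;> by_cases h2 : i = i' <;>
        simp only [mul, T, Y, h1, h2, if_true, if_false] <;>
        split_ifs <;> (try simp only [mul, T, Y, h2, if_true, if_false]) <;> (try split_ifs) <;>
        (first | rfl | omega)
    | y j' i h' =>
      cases c with
      | zero => rw [mul_zero', mul_zero', mul_zero']
      | one => rw [mul_one', mul_one']
      | t i' m h'' =>
        by_cases h1 : j = j' <;> by_cases h2 : i = i' <;>
        simp only [mul, T, Y, h1, h2, if_true, if_false] <;>
        split_ifs <;> (try simp only [mul, T, Y, h2, if_true, if_false]) <;> (try split_ifs) <;>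
        (first | rfl | omega)
      | y i' m h'' =>
        by_cases h1 : j = j' <;>
        simp only [mul, T, Y, h1, if_true, if_false] <;>
        split_ifs <;> (try simp only [mul, T, Y, if_true, if_false]) <;> (try split_ifs) <;>
        (first | rfl | omega)
  | y l j h =>
    cases b with
    | zero => rfl
    | one => rfl
    | t j' i h' =>
      cases c with
      | zero => rw [mul_zero', mul_zero', mul_zero']
      | one => rw [mul_one', mul_one']
      | t i' m h'' =>
        by_cases h1 : j = j' <;> by_cases h2 : i = i' <;>
        simp only [mul, T, Y, h1, h2, if_true, if_false] <;>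
        split_ifs <;> (try simp only [mul, T, Y, h2, if_true, if_false]) <;> (try split_ifs) <;>
        (first | rfl | omega)
      | y i' m h'' =>
        by_cases h1 : j = j' <;> by_cases h2 : i = i' <;>
        simp only [mul, T, Y, h1, h2, if_true, if_false] <;>
        split_ifs <;> (try simp only [mul, T, Y, h2, if_true, if_false]) <;> (try split_ifs) <;>
        (first | rfl | omega)
    | y j' i h' =>
      cases c with
      | zero => rw [mul_zero', mul_zero', mul_zero']
      | one => rw [mul_one', mul_one']
      | t i' m h'' =>
        by_cases h2 : i = i' <;>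
        simp only [mul, T, Y, h2, if_true, if_false] <;>
        split_ifs <;> (try simp only [mul, T, Y, h2, if_true, if_false]) <;> (try split_ifs) <;>
        (first | rfl | omega)
      | y i' m h'' => rfl

instance : Monoid B0 where
  mul := mul
  one := one
  mul_assoc := mul_assoc'
  one_mul := fun _ => rfl
  mul_one := mul_one'

theorem zero_mul' (b : B0) : zero * b = zero := rfl

theorem mul_zero'' (b : B0) : b * zero = zero := mul_zero' b

theorem one_def : (1 : B0) = one := rfl

theorem t_mul_t (l j j' i : ℕ) (h : l ≤ j) (h' : j' ≤ i) :
    t l j h * t j' i h' = if j = j' then T l i else zero := rfl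

theorem t_mul_y (l j j' i : ℕ) (h : l ≤ j) (h' : i ≤ j') :
    t l j h * y j' i h' = if j = j' then Y l i else zero := rfl

theorem y_mul_t (l j j' i : ℕ) (h : j ≤ l) (h' : j' ≤ i) :
    y l j h * t j' i h' = if j = j' then Y l i else zero := rfl

theorem y_mul_y (l j j' i : ℕ) (h : j ≤ l) (h' : i ≤ j') :
    y l j h * y j' i h' = zero := rfl

end B0

end Pool.Agent.Lib.MP_c052b4_al.VG
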