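import Pool.Agent.Lib.MP_c052b4_al.VG.Cls

/-!
# Sequential colimits
-/

set_option autoImplicit false

namespace Pool.Agent.Lib.MP_c052b4_al.VG

open DirectSum

variable {R : Type} [Ring R] {C : ∀ (M : Type) [AddCommGroup M] [Module R M], Prop}

section Tele

variable {M : ℕ → Type} [∀ n, AddCommGroup (M n)] [∀ n, Module R (M n)]
  (f : ∀ n, M n →ₗ[R] M (n + 1))

/-- iterated transition maps -/
def it (n : ℕ) : ∀ k : ℕ, M n →ₗ[R] M (n + k)
  | 0 => LinearMap.id
  | (k + 1) => (f (n + k)).comp (it n k)

/-- the shift on the direct sum -/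
noncomputable def shift : (⨁ n, M n) →ₗ[R] (⨁ n, M n) :=
  DirectSum.toModule R ℕ (⨁ n, M n) (fun n => (DirectSum.lof R ℕ M (n + 1)).comp (f n))

theorem shift_lof (n : ℕ) (x : M n) :
    shift f (DirectSum.lof R ℕ M n x) = DirectSum.lof R ℕ M (n + 1) (f n x) := by
  rw [shift, DirectSum.toModule_lof]
  rfl

theorem shift_apply_zero (x : ⨁ n, M n) : shift f x 0 = 0 := by
  have h : ∀ x : ⨁ n, M n, (DirectSum.component R ℕ M 0).comp (shift f) x = (0 : _ →ₗ[R] M 0) x := by
    intro x
    have : (DirectSum.component R ℕ M 0).comp (shift f) = 0 := by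
      apply DirectSum.linearMap_ext
      intro n
      ext a
      change DirectSum.component R ℕ M 0 (shift f (DirectSum.lof R ℕ M n a)) = 0
      rw [shift_lof]
      exact DirectSum.component.of R _ _ _ |>.trans (dif_neg (by omega))
    rw [this]
  exact h x

theorem shift_apply_succ (x : ⨁ n, M n) (n : ℕ) : shift f x (n + 1) = f n (x n) := by
  have : (DirectSum.component R ℕ M (n + 1)).comp (shift f) =
      (f n).comp (DirectSum.component R ℕ M n) := by
    apply DirectSum.linearMap_ext
    intro k
    ext a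
    change DirectSum.component R ℕ M (n + 1) (shift f (DirectSum.lof R ℕ M k a)) =
      f n (DirectSum.component R ℕ M n (DirectSum.lof R ℕ M k a))
    rw [shift_lof]
    by_cases hk : k = n
    · subst hk
      rw [DirectSum.component.lof_self, DirectSum.component.lof_self]
    · rw [DirectSum.component.of, DirectSum.component.of, dif_neg (by omega), dif_neg hk, map_zero]
  exact LinearMap.congr_fun this x

/-- one minus the shift -/
noncomputable def tele : (⨁ n, M n) →ₗ[R] (⨁ n, M n) := LinearMap.id - shift f

theorem tele_apply (x : ⨁ n, M n) : tele f x = x - shift f x := rfl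

theorem tele_injective : Function.Injective (tele f) := by
  rw [injective_iff_map_eq_zero]
  intro x hx
  have hx' : x = shift f x := by
    have := hx
    rw [tele_apply, sub_eq_zero] at this
    exact this
  have h : ∀ n, x n = 0 := by
    intro n
    induction n with
    | zero => rw [hx', shift_apply_zero]
    | succ n ih => rw [hx', shift_apply_succ, ih, map_zero]
  exact DFinsupp.ext h

/-- every element is congruent to one concentrated in a single large degree -/
theorem tele_mod (x : ⨁ n, M n) : ∃ N : ℕ, ∀ N', N ≤ N' → ∃ w : M N',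
    x - DirectSum.lof R ℕ M N' w ∈ LinearMap.range (tele f) := by
  induction x using DirectSum.induction_on with
  | zero => exact ⟨0, fun N' _ => ⟨0, by simp⟩⟩
  | of n a =>
    refine ⟨n, fun N' hN => ?_⟩
    obtain ⟨k, rfl⟩ := Nat.exists_eq_add_of_le hN
    refine ⟨it f n k a, ?_⟩
    clear hN
    induction k with
    | zero =>
      change DirectSum.of M n a - DirectSum.lof R ℕ M n a ∈ _
      rw [DirectSum.lof_eq_of, sub_self]
      exact Submodule.zero_mem _
    | succ k ih =>
      have h2 : DirectSum.lof R ℕ M (n + k) (it f n k a) -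
          DirectSum.lof R ℕ M (n + k + 1) (f (n + k) (it f n k a)) ∈
          LinearMap.range (tele f) :=
        ⟨DirectSum.lof R ℕ M (n + k) (it f n k a), by
          rw [tele_apply, shift_lof]⟩
      have h3 := Submodule.add_mem _ ih h2
      rw [sub_add_sub_cancel] at h3
      exact h3
  | add x y hx hy =>
    obtain ⟨N1, h1⟩ := hx
    obtain ⟨N2, h2⟩ := hy
    refine ⟨max N1 N2, fun N' hN => ?_⟩
    obtain ⟨w1, hw1⟩ := h1 N' (le_trans (le_max_left _ _) hN)
    obtain ⟨w2, hw2⟩ := h2 N' (le_trans (le_max_right _ _) hN)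
    refine ⟨w1 + w2, ?_⟩
    rw [map_add, add_sub_add_comm]
    exact Submodule.add_mem _ hw1 hw2

variable {L : Type} [AddCommGroup L] [Module R L] (g : ∀ n, M n →ₗ[R] L)

theorem tele_exact (hg : ∀ n x, g (n + 1) (f n x) = g n x)
    (hk : ∀ n x, g n x = 0 → ∃ k, it f n k x = 0) :
    Function.Exact (tele f) (DirectSum.toModule R ℕ L g) := by
  have h0 : ∀ x, DirectSum.toModule R ℕ L g (tele f x) = 0 := by
    intro x
    have : (DirectSum.toModule R ℕ L g).comp (tele f) = 0 := by
      apply DirectSum.linearMap_ext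
      intro n
      ext a
      change DirectSum.toModule R ℕ L g (tele f (DirectSum.lof R ℕ M n a)) = 0
      rw [tele_apply, shift_lof, map_sub, DirectSum.toModule_lof,
        DirectSum.toModule_lof, hg, sub_self]
    exact LinearMap.congr_fun this x
  intro x
  constructor
  · intro hx
    obtain ⟨N, hN⟩ := tele_mod f x
    obtain ⟨w, hw⟩ := hN N le_rfl
    have hgw : g N w = 0 := by
      obtain ⟨y, hy⟩ := hw
      have h1 := h0 y
      rw [hy, map_sub, hx, DirectSum.toModule_lof, zero_sub, neg_eq_zero] at h1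
      exact h1
    obtain ⟨k, hk'⟩ := hk N w hgw
    have h2 : ∀ k, DirectSum.lof R ℕ M N w - DirectSum.lof R ℕ M (N + k) (it f N k w) ∈
        LinearMap.range (tele f) := by
      intro k
      induction k with
      | zero =>
        change DirectSum.lof R ℕ M N w - DirectSum.lof R ℕ M N w ∈ _
        rw [sub_self]
        exact Submodule.zero_mem _
      | succ k ih =>
        have h2 : DirectSum.lof R ℕ M (N + k) (it f N k w) -
            DirectSum.lof R ℕ M (N + k + 1) (f (N + k) (it f N k w)) ∈
            LinearMap.range (tele f) :=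
          ⟨DirectSum.lof R ℕ M (N + k) (it f N k w), by
            rw [tele_apply, shift_lof]⟩
        have h3 := Submodule.add_mem _ ih h2
        rw [sub_add_sub_cancel] at h3
        exact h3
    have h3 := h2 k
    rw [hk', map_zero, sub_zero] at h3
    have h4 := Submodule.add_mem _ hw h3
    rw [sub_add_cancel] at h4
    exact h4
  · rintro ⟨y, rfl⟩
    exact h0 y

end Tele

/-- closure under sequential colimits -/
theorem seq_of (hC : IsCls R C) (M : ℕ → Type) [∀ n, AddCommGroup (M n)] [∀ n, Module R (M n)]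
    (f : ∀ n, M n →ₗ[R] M (n + 1)) (L : Type) [AddCommGroup L] [Module R L]
    (g : ∀ n, M n →ₗ[R] L) (hg : ∀ n x, g (n + 1) (f n x) = g n x)
    (hs : ∀ l : L, ∃ n x, g n x = l) (hk : ∀ n x, g n x = 0 → ∃ k, it f n k x = 0)
    (hM : ∀ n, C (M n)) : C L := by
  refine hC.right (⨁ n, M n) (⨁ n, M n) L (tele f) (DirectSum.toModule R ℕ L g)
    (tele_injective f) (tele_exact f g hg hk) ?_ (hC.sum ℕ M hM) (hC.sum ℕ M hM)
  intro l
  obtain ⟨n, x, rfl⟩ := hs l
  exact ⟨DirectSum.lof R ℕ M n x, DirectSum.toModule_lof R n x⟩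

/-- closure under unions of chains of submodules with successive quotients in the class -/
theorem union_of (hC : IsCls R C) {X : Type} [AddCommGroup X] [Module R X]
    (N : ℕ → Submodule R X) (hmono : ∀ n, N n ≤ N (n + 1)) (htop : ∀ x, ∃ n, x ∈ N n)
    (h0 : C ↥(N 0)) (hq : ∀ n, C ↥((N (n + 1)).map (N n).mkQ)) : C X := by
  have hN : ∀ n, C ↥(N n) := by
    intro n
    induction n with
    | zero => exact h0
    | succ n ih =>
      refine of_map hC (N (n + 1)) (N n).mkQ ?_ (hq n)
      rw [Submodule.ker_mkQ, inf_eq_right.2 (hmono n)]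
      exact ih
  refine seq_of hC (fun n => ↥(N n)) (fun n => Submodule.inclusion (hmono n)) X
    (fun n => (N n).subtype) (fun n x => rfl) ?_ ?_ hN
  · intro l
    obtain ⟨n, hn⟩ := htop l
    exact ⟨n, ⟨l, hn⟩, rfl⟩
  · intro n x hx
    exact ⟨0, Subtype.ext hx⟩

/-- left ideals generated by an idempotent are in the class -/
theorem idem_of (hC : IsCls R C) (e : R) (he : e * e = e) :
    C ↥((⊤ : Submodule R R).map (LinearMap.toSpanSingleton R R e)) := by
  have hfac : ∀ x : R, x * e ∈ (⊤ : Submodule R R).map (LinearMap.toSpanSingleton R R e) :=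
    fun x => ⟨x, trivial, rfl⟩
  refine seq_of hC (fun _ => R) (fun _ => LinearMap.toSpanSingleton R R e) _
    (fun _ => (LinearMap.toSpanSingleton R R e).codRestrict _ hfac) ?_ ?_ ?_ (fun _ => hC.self)
  · intro n x
    apply Subtype.ext
    change x * e * e = x * e
    rw [mul_assoc, he]
  · rintro ⟨_, x, _, rfl⟩
    exact ⟨0, x, rfl⟩
  · intro n x hx
    refine ⟨1, ?_⟩
    have h := congrArg Subtype.val hx
    exact h

end Pool.Agent.Lib.MP_c052b4_al.VG
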